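import Pool.Agent.helper3.XT.Spec

set_option autoImplicit false

namespace Pool.Agent.XT

open Finset SimpleGraph

/-- the part which is symmetric in the two triples -/
lemma TUG_half (hGEO : GEO_stmt) (n : ℕ) (B : FS n) (P : Finset (Fin n × Fin n × Fin n))
    (hB : G8 B) (hP : Cl B P) (x y : Fin 3 → Fin n) (hx : Function.Injective x)
    (h1 : ∀ j, x j ∈ Phi P (y 0) (y 1)) (h2 : ∀ i, y i ∈ Phi P (x 0) (x 1)) :
    ∀ i j k : Fin 3, j ≠ k → (i, j) ≠ (2, 2) → (i, k) ≠ (2, 2) → y i ∈ Phi P (x j) (x k) := by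
  obtain ⟨g1, g2, g3⟩ := hGEO n B P hB hP
  have a0 : ∀ j k : Fin 3, j ≠ k → y 0 ∈ Phi P (x j) (x k) := fun j k hjk =>
    g3 _ _ _ _ (fun e => hjk (hx e)) (h1 j) (h1 k)
  have a1 : ∀ j k : Fin 3, j ≠ k → y 1 ∈ Phi P (x j) (x k) := fun j k hjk =>
    g3 _ _ _ _ (fun e => hjk (hx e)) (g2 _ _ _ (h1 j)).1 (g2 _ _ _ (h1 k)).1
  intro i j k hjk hj hk
  have hi : i = 0 ∨ i = 1 ∨ i = 2 := by
    clear hj hk
    revert i
    decide
  rcases hi with rfl | rfl | rfl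
  · exact a0 j k hjk
  · exact a1 j k hjk
  · have hjk2 : (j = 0 ∧ k = 1) ∨ (j = 1 ∧ k = 0) := by
      revert j k
      decide
    rcases hjk2 with ⟨rfl, rfl⟩ | ⟨rfl, rfl⟩
    · exact h2 2
    · exact (g2 _ _ _ (h2 2)).1

theorem TUG (hGEO : GEO_stmt) (hDIS : DIS_stmt) : TUG_stmt := by
  classical
  intro n B P hB hP t ht
  unfold TU at ht
  rw [Finset.mem_filter] at ht
  obtain ⟨-, hx, hy, h1, h2⟩ := ht
  obtain ⟨x, y⟩ := t
  simp only at hx hy h1 h2 ⊢
  obtain ⟨g1, g2, g3⟩ := hGEO n B P hB hP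
  have hA := TUG_half hGEO n B P hB hP x y hx h1 h2
  have hC := TUG_half hGEO n B P hB hP y x hy h2 h1
  have hC' : ∀ i j k : Fin 3, j ≠ k → (j, i) ≠ (2, 2) → (k, i) ≠ (2, 2) → x i ∈ Phi P (y j) (y k) := by
    intro i j k hjk hj hk
    refine hC i j k hjk ?_ ?_
    · intro e
      rw [Prod.mk.injEq] at e
      exact hj (by rw [e.1, e.2])
    · intro e
      rw [Prod.mk.injEq] at e
      exact hk (by rw [e.1, e.2])
  refine ⟨hA, hC', ?_⟩
  have hline : ∀ p : Fin 3 × Fin 3, p ≠ (2, 2) → ∃ l, (y p.1, l, x p.2) ∈ P := by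
    rintro ⟨i, j⟩ hp
    obtain ⟨k, hjk, hk⟩ : ∃ k : Fin 3, j ≠ k ∧ (i, k) ≠ (2, 2) := by
      revert i j
      decide
    exact (g2 _ _ _ (hA i j k hjk hp hk)).2.2.2.2.1
  choose f hf using hline
  set s : P8 → Fin n := fun p => f p.1 p.2 with hs
  have hsP : ∀ p : P8, (y p.1.1, s p, x p.1.2) ∈ P := fun p => hf p.1 p.2
  have hfu : ∀ p : P8, (y p.1.1, s p) ∈ B := fun p => hP.fx _ _ _ (hsP p)
  have hfw : ∀ p : P8, (x p.1.2, s p) ∈ B := fun p => hP.fx _ _ _ (hP.sy _ _ _ (hsP p))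
  set s' : Fin 3 × Fin 3 → Fin n := fun e => if h : e ≠ (2, 2) then f e h else y 0 with hs'
  have hs's : ∀ e (h : e ≠ (2, 2)), s' e = f e h := fun e h => by
    rw [hs']
    simp only [dif_pos h]
  have hE : ∀ e : Fin 3 × Fin 3, e ∈ (Finset.univ.filter fun e : Fin 3 × Fin 3 => e ≠ (2, 2)) ↔
      e ≠ (2, 2) := by
    intro e
    simp
  have hdis := hDIS n B P hB hP (Finset.univ.filter fun e : Fin 3 × Fin 3 => e ≠ (2, 2)) x y s'
    (by
      intro a a' b b' haa hbb _ _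
      rw [hE, hE]
      by_contra hc
      push Not at hc
      rw [Prod.mk.injEq, Prod.mk.injEq] at hc
      exact haa (hc.1.1.trans hc.2.1.symm)) hx hy
    (by
      intro e he
      rw [hE] at he
      rw [hs's e he]
      exact hf e he)
    (by
      intro a b b' hbb h h'
      rw [hE] at h h'
      exact hA a b b' hbb h h')
    (by
      intro a a' b haa h h'
      rw [hE] at h h'
      exact hC' b a a' haa h h')
  have hsinj : Function.Injective s := by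
    rintro ⟨p, hp⟩ ⟨q, hq⟩ e
    have e1 : s' p = s' q := by
      rw [hs's p hp, hs's q hq]
      exact e
    have e2 := hdis p ((hE p).mpr hp) q ((hE q).mpr hq) e1
    exact Subtype.ext e2
  have h22 : y 2 ≠ x 2 := by
    intro e
    have q1 : ((2, 0) : Fin 3 × Fin 3) ≠ (2, 2) := by decide
    have q2 : ((0, 0) : Fin 3 × Fin 3) ≠ (2, 2) := by decide
    have q3 : ((0, 2) : Fin 3 × Fin 3) ≠ (2, 2) := by decide
    have b1 := hfu ⟨(2, 0), q1⟩
    have b2 := hfw ⟨(2, 0), q1⟩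
    have b3 := hfw ⟨(0, 0), q2⟩
    have b4 := hfu ⟨(0, 0), q2⟩
    have b5 := hfu ⟨(0, 2), q3⟩
    have b6 := hfw ⟨(0, 2), q3⟩
    simp only at b1 b2 b3 b4 b5 b6
    rw [← e] at b6
    have n1 : y 2 ≠ x 0 := by
      rw [e]
      intro e'
      exact absurd (hx e') (by decide)
    have n2 : x 0 ≠ y 0 := by
      have := hP.ne _ _ _ (hsP ⟨(0, 0), q2⟩)
      exact fun e' => this e'.symm
    have n3 : y 2 ≠ y 0 := fun e' => absurd (hy e') (by decide)
    have hc := (hB.c6 _ _ _ _ _ _ b1 b2 b3 b4 b5 b6 n1 n2 n3).1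
    have := hsinj hc
    rw [Subtype.mk.injEq] at this
    exact absurd this (by decide)
  refine ⟨s, ⟨?_, hsinj, hfu, hfw⟩, hsP⟩
  have hyx : ∀ i j, y i ≠ x j := by
    intro i j
    by_cases h : (i, j) = ((2, 2) : Fin 3 × Fin 3)
    · rw [Prod.mk.injEq] at h
      rw [h.1, h.2]
      exact h22
    · exact hP.ne _ _ _ (hsP ⟨(i, j), h⟩)
  exact Function.Injective.sumElim hy hx hyx

end Pool.Agent.XT
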